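import Pool.Agent.R731.AV.Defs

/-!
# Every finite complex is an avalanche complex up to homotopy
-/

set_option autoImplicit false

open scoped BigOperators

namespace Pool.Agent.R731.AV

variable {W : Type} [Fintype W] {T : ℕ}

/-- The vertices: the vertices of the complex, a clock and a sink. -/
abbrev Vtx (W : Type) (T : ℕ) : Type := W ⊕ (Fin T ⊕ Unit)

/-- The arcs. -/
def arc (F : ℕ → Finset W) : Vtx W T → Vtx W T → Prop
  | Sum.inl _, Sum.inr (Sum.inr _) => True
  | Sum.inr (Sum.inl _), Sum.inr (Sum.inr _) => True
  | Sum.inr (Sum.inl s), Sum.inl w => s.1 + 1 < T ∧ w ∈ F (s.1 + 1)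
  | Sum.inr (Sum.inl s), Sum.inr (Sum.inl s') => s'.1 = s.1 + 1
  | _, _ => False

/-- The digraph. -/
def clockG (T : ℕ) (F : ℕ → Finset W) : Digraph (Vtx W T) := ⟨arc F⟩

open Classical in
/-- The expected configurations (outside the sink). -/
noncomputable def expected (F : ℕ → Finset W) (t : ℕ) : Vtx W T → ℕ
  | Sum.inl w => if t < T ∧ w ∈ F t then 1 else 0
  | Sum.inr (Sum.inl s) =>
      if s.1 < t then 0 else if s.1 = t then outDeg (clockG T F) (Sum.inr (Sum.inl s))
      else outDeg (clockG T F) (Sum.inr (Sum.inl s)) - 1
  | Sum.inr (Sum.inr _) => 0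

theorem outDeg_vertex (F : ℕ → Finset W) (w : W) : outDeg (clockG T F) (Sum.inl w) = 1 := by
  unfold outDeg
  rw [Finset.card_eq_one]
  refine ⟨Sum.inr (Sum.inr ()), ?_⟩
  ext v
  rcases v with v | v | v <;> simp [clockG, arc]

theorem outDeg_clock_pos (F : ℕ → Finset W) (s : Fin T) :
    0 < outDeg (clockG T F) (Sum.inr (Sum.inl s)) := by
  unfold outDeg
  rw [Finset.card_pos]
  exact ⟨Sum.inr (Sum.inr ()), by simp [clockG, arc]⟩

theorem outDeg_sink (F : ℕ → Finset W) (u : Unit) :
    outDeg (clockG T F) (Sum.inr (Sum.inr u)) = 0 := by
  unfold outDeg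
  rw [Finset.card_eq_zero]
  ext v
  rcases v with v | v | v <;> simp [clockG, arc]

theorem fires_sink (F : ℕ → Finset W) (c : Vtx W T → ℕ) (u : Unit) :
    ¬ Fires (clockG T F) c (Sum.inr (Sum.inr u)) := by
  unfold Fires
  rw [outDeg_sink]
  simp

theorem fires_vertex (F : ℕ → Finset W) (c : Vtx W T → ℕ) (w : W) (t : ℕ)
    (h : c (Sum.inl w) = expected F t (Sum.inl w : Vtx W T)) :
    Fires (clockG T F) c (Sum.inl w) ↔ t < T ∧ w ∈ F t := by
  unfold Fires
  rw [outDeg_vertex, h]
  unfold expected
  dsimp only
  split_ifs with h1
  · simp [h1]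
  · simp [h1]

theorem fires_clock (F : ℕ → Finset W) (c : Vtx W T → ℕ) (s : Fin T) (t : ℕ)
    (h : c (Sum.inr (Sum.inl s)) = expected F t (Sum.inr (Sum.inl s) : Vtx W T)) :
    Fires (clockG T F) c (Sum.inr (Sum.inl s)) ↔ s.1 = t := by
  have hp := outDeg_clock_pos F s
  unfold Fires
  rw [h]
  unfold expected
  dsimp only
  split_ifs with h1 h2
  · constructor
    · rintro ⟨_, h3⟩; omega
    · intro h3; omega
  · constructor
    · intro _; exact h2
    · intro _; exact ⟨hp, le_rfl⟩
  · constructor
    · rintro ⟨_, h3⟩; omega
    · intro h3; omega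

open Classical in
theorem conf_eq (F : ℕ → Finset W) (t : ℕ) :
    ∀ v : W ⊕ Fin T, conf (clockG T F) (expected F 0) t
      (Sum.elim Sum.inl (fun s => Sum.inr (Sum.inl s)) v) =
      expected F t (Sum.elim Sum.inl (fun s => Sum.inr (Sum.inl s)) v) := by
  induction t with
  | zero => intro v; rfl
  | succ t ih =>
    have hw : ∀ w : W, conf (clockG T F) (expected F 0) t (Sum.inl w) =
        expected F t (Sum.inl w : Vtx W T) := fun w => ih (Sum.inl w)
    have hs : ∀ s : Fin T, conf (clockG T F) (expected F 0) t (Sum.inr (Sum.inl s)) =
        expected F t (Sum.inr (Sum.inl s) : Vtx W T) := fun s => ih (Sum.inr s)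
    have hconf : conf (clockG T F) (expected F 0) (t + 1) =
        step (clockG T F) (conf (clockG T F) (expected F 0) t) := by
      unfold conf
      rw [Function.iterate_succ_apply']
    rw [hconf]
    set c := conf (clockG T F) (expected F 0) t with hc
    rintro (w | s)
    · simp only [Sum.elim_inl]
      have hin : (Finset.univ.filter fun u => Fires (clockG T F) c u ∧
          (clockG T F).Adj u (Sum.inl w : Vtx W T)).card =
          if t + 1 < T ∧ w ∈ F (t + 1) then 1 else 0 := by
        split_ifs with h1
        · rw [Finset.card_eq_one]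
          refine ⟨Sum.inr (Sum.inl ⟨t, by omega⟩), ?_⟩
          ext u
          rcases u with u | u | u
          · simp [clockG, arc]
          · rw [Finset.mem_filter, Finset.mem_singleton, fires_clock F c u t (hs u)]
            simp only [clockG, arc, Finset.mem_univ, true_and, Sum.inr.injEq, Sum.inl.injEq]
            constructor
            · rintro ⟨h2, _⟩
              exact Fin.ext h2
            · intro h2
              have h3 : u.1 = t := by rw [h2]
              rw [h3]
              exact ⟨rfl, h1⟩
          · simp [clockG, arc]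
        · rw [Finset.card_eq_zero]
          ext u
          rcases u with u | u | u
          · simp [clockG, arc]
          · rw [Finset.mem_filter, fires_clock F c u t (hs u)]
            simp only [clockG, arc, Finset.mem_univ, true_and, Finset.notMem_empty, iff_false]
            rintro ⟨h2, h3⟩
            rw [h2] at h3
            exact h1 h3
          · simp [clockG, arc]
      unfold step
      rw [hin, hw w]
      have hf := fires_vertex F c w t (hw w)
      simp only [hf, outDeg_vertex]
      unfold expected
      dsimp only
      split_ifs <;> simp_all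
    · simp only [Sum.elim_inr]
      have hin : (Finset.univ.filter fun u => Fires (clockG T F) c u ∧
          (clockG T F).Adj u (Sum.inr (Sum.inl s) : Vtx W T)).card =
          if s.1 = t + 1 then 1 else 0 := by
        split_ifs with h1
        · rw [Finset.card_eq_one]
          refine ⟨Sum.inr (Sum.inl ⟨t, by omega⟩), ?_⟩
          ext u
          rcases u with u | u | u
          · simp [clockG, arc]
          · rw [Finset.mem_filter, Finset.mem_singleton, fires_clock F c u t (hs u)]
            simp only [clockG, arc, Finset.mem_univ, true_and, Sum.inr.injEq, Sum.inl.injEq]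
            constructor
            · rintro ⟨h2, _⟩
              exact Fin.ext h2
            · intro h2
              have h3 : u.1 = t := by rw [h2]
              rw [h3]
              exact ⟨rfl, h1⟩
          · simp [clockG, arc]
        · rw [Finset.card_eq_zero]
          ext u
          rcases u with u | u | u
          · simp [clockG, arc]
          · rw [Finset.mem_filter, fires_clock F c u t (hs u)]
            simp only [clockG, arc, Finset.mem_univ, true_and, Finset.notMem_empty, iff_false]
            rintro ⟨h2, h3⟩
            omega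
          · simp [clockG, arc]
      unfold step
      rw [hin, hs s]
      have hf := fires_clock F c s t (hs s)
      simp only [hf]
      have hp := outDeg_clock_pos F s
      unfold expected
      dsimp only
      split_ifs <;> omega

/-- The firing sets. -/
theorem mem_firing (F : ℕ → Finset W) (t : ℕ) (v : Vtx W T) :
    v ∈ firing (clockG T F) (expected F 0) t ↔
      (∃ w, v = Sum.inl w ∧ t < T ∧ w ∈ F t) ∨ (∃ s : Fin T, v = Sum.inr (Sum.inl s) ∧ s.1 = t) := by
  unfold firing
  rw [Set.mem_ofPred_eq]
  rcases v with w | s | u
  · rw [fires_vertex F _ w t (conf_eq F t (Sum.inl w))]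
    simp
  · rw [fires_clock F _ s t (conf_eq F t (Sum.inr s))]
    simp
  · constructor
    · intro h; exact absurd h (fires_sink F _ u)
    · rintro (⟨w, h, _⟩ | ⟨s, h, _⟩) <;> simp at h

omit [Fintype W] in
theorem loopless (F : ℕ → Finset W) (v : Vtx W T) : ¬ (clockG T F).Adj v v := by
  rcases v with w | s | u
  · simp [clockG, arc]
  · simp only [clockG, arc]; omega
  · simp [clockG, arc]

omit [Fintype W] in
theorem connected (F : ℕ → Finset W) : (SimpleGraph.fromRel (clockG T F).Adj).Connected := by
  have h : ∀ v : Vtx W T, (SimpleGraph.fromRel (clockG T F).Adj).Reachable v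
      (Sum.inr (Sum.inr ())) := by
    intro v
    rcases v with w | s | u
    · exact SimpleGraph.Adj.reachable (by rw [SimpleGraph.fromRel_adj]; simp [clockG, arc])
    · exact SimpleGraph.Adj.reachable (by rw [SimpleGraph.fromRel_adj]; simp [clockG, arc])
    · exact SimpleGraph.Reachable.refl _
  have : Nonempty (Vtx W T) := ⟨Sum.inr (Sum.inr ())⟩
  exact ⟨fun a b => (h a).trans (h b).symm⟩

end Pool.Agent.R731.AV
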