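import Pool.Agent.R731.AV.Clock

/-!
# The avalanche complex of the clock collapses onto the given complex
-/

set_option autoImplicit false

open scoped BigOperators unitInterval

namespace Pool.Agent.R731.AV

/-- The realization of the complex with the facets `F t`, `t < T`. -/
abbrev Cx (W : Type) [Fintype W] (T : ℕ) (F : ℕ → Finset W) : Type :=
  {x : W → ℝ // (∀ w, 0 ≤ x w) ∧ ∑ w, x w = 1 ∧ ∃ t < T, ∀ w, x w ≠ 0 → w ∈ F t}

variable {W : Type} [Fintype W] {T : ℕ}

open Classical in
/-- The barycentres of the facets. -/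
noncomputable def bary (F : ℕ → Finset W) (s : ℕ) (w : W) : ℝ :=
  if w ∈ F s then ((F s).card : ℝ)⁻¹ else 0

omit [Fintype W] in
theorem bary_nonneg (F : ℕ → Finset W) (s : ℕ) (w : W) : 0 ≤ bary F s w := by
  unfold bary; split_ifs <;> positivity

theorem bary_sum (F : ℕ → Finset W) (s : ℕ) (h : (F s).Nonempty) : ∑ w, bary F s w = 1 := by
  classical
  unfold bary
  rw [Finset.sum_ite_mem, Finset.univ_inter, Finset.sum_const, nsmul_eq_mul]
  have : ((F s).card : ℝ) ≠ 0 := by exact_mod_cast h.card_pos.ne'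
  field_simp

/-- The retraction in coordinates. -/
noncomputable def rFun (F : ℕ → Finset W) (x : Vtx W T → ℝ) (w : W) : ℝ :=
  x (Sum.inl w) + ∑ s : Fin T, x (Sum.inr (Sum.inl s)) * bary F s w

/-- The inclusion in coordinates. -/
def iFun (y : W → ℝ) : Vtx W T → ℝ := Sum.elim y (fun _ => 0)

theorem sum_vtx (x : Vtx W T → ℝ) : ∑ v, x v =
    ∑ w, x (Sum.inl w) + (∑ s : Fin T, x (Sum.inr (Sum.inl s)) + x (Sum.inr (Sum.inr ()))) := by
  rw [Fintype.sum_sum_type, Fintype.sum_sum_type]
  simp

theorem rFun_sum (F : ℕ → Finset W) (hF : ∀ t < T, (F t).Nonempty) (x : Vtx W T → ℝ) :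
    ∑ w, rFun F x w = ∑ w, x (Sum.inl w) + ∑ s : Fin T, x (Sum.inr (Sum.inl s)) := by
  unfold rFun
  rw [Finset.sum_add_distrib, Finset.sum_comm]
  congr 1
  refine Finset.sum_congr rfl fun s _ => ?_
  rw [← Finset.mul_sum, bary_sum F s (hF s s.2), mul_one]

/-- The points of the avalanche complex: some `t < T` with the support in the `t`-th firing set. -/
theorem exists_time (F : ℕ → Finset W) (x : Avalanche (clockG T F) (expected F 0)) :
    ∃ t < T, (∀ w, x.1 (Sum.inl w) ≠ 0 → w ∈ F t) ∧
      (∀ s : Fin T, x.1 (Sum.inr (Sum.inl s)) ≠ 0 → s.1 = t) ∧ x.1 (Sum.inr (Sum.inr ())) = 0 := by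
  obtain ⟨x, h0, h1, t, ht⟩ := x
  have hex : ∃ v, x v ≠ 0 := by
    by_contra hcon
    push Not at hcon
    rw [Finset.sum_eq_zero (fun v _ => hcon v)] at h1
    exact zero_ne_one h1
  have htT : t < T := by
    obtain ⟨v, hv⟩ := hex
    have := (mem_firing F t v).1 (ht v hv)
    rcases this with ⟨w, _, h, _⟩ | ⟨s, _, h⟩
    · exact h
    · rw [← h]; exact s.2
  refine ⟨t, htT, ?_, ?_, ?_⟩
  · intro w hw
    rcases (mem_firing F t _).1 (ht _ hw) with ⟨w', h, _, h3⟩ | ⟨s, h, _⟩
    · simp only [Sum.inl.injEq] at h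
      rw [h]; exact h3
    · simp at h
  · intro s hs
    rcases (mem_firing F t _).1 (ht _ hs) with ⟨w', h, _, h3⟩ | ⟨s', h, h3⟩
    · simp at h
    · simp only [Sum.inr.injEq, Sum.inl.injEq] at h
      rw [h]; exact h3
  · by_contra hs
    rcases (mem_firing F t _).1 (ht _ hs) with ⟨w', h, _, h3⟩ | ⟨s', h, h3⟩
    · simp at h
    · simp at h

theorem rFun_mem (F : ℕ → Finset W) (hF : ∀ t < T, (F t).Nonempty)
    (x : Avalanche (clockG T F) (expected F 0)) :
    (∀ w, 0 ≤ rFun F x.1 w) ∧ ∑ w, rFun F x.1 w = 1 ∧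
      ∃ t < T, ∀ w, rFun F x.1 w ≠ 0 → w ∈ F t := by
  obtain ⟨t, htT, h1, h2, h3⟩ := exists_time F x
  refine ⟨?_, ?_, t, htT, ?_⟩
  · intro w
    unfold rFun
    exact add_nonneg (x.2.1 _) (Finset.sum_nonneg fun s _ => mul_nonneg (x.2.1 _) (bary_nonneg _ _ _))
  · rw [rFun_sum F hF]
    have := x.2.2.1
    rw [sum_vtx, h3, add_zero] at this
    exact this
  · intro w hw
    by_contra hcon
    apply hw
    unfold rFun
    have h4 : x.1 (Sum.inl w) = 0 := by
      by_contra h; exact hcon (h1 w h)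
    rw [h4, zero_add]
    refine Finset.sum_eq_zero fun s _ => ?_
    by_cases h5 : x.1 (Sum.inr (Sum.inl s)) = 0
    · rw [h5, zero_mul]
    · have h6 := h2 s h5
      unfold bary
      rw [h6, if_neg hcon, mul_zero]

theorem iFun_mem (F : ℕ → Finset W) (y : Cx W T F) :
    (∀ v, 0 ≤ (iFun y.1 : Vtx W T → ℝ) v) ∧ ∑ v, (iFun y.1 : Vtx W T → ℝ) v = 1 ∧
      ∃ t, ∀ v, (iFun y.1 : Vtx W T → ℝ) v ≠ 0 → v ∈ firing (clockG T F) (expected F 0) t := by
  obtain ⟨y, h0, h1, t, htT, ht⟩ := y
  refine ⟨?_, ?_, t, ?_⟩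
  · rintro (w | v)
    · exact h0 w
    · exact le_rfl
  · rw [sum_vtx]
    simp [iFun, h1]
  · rintro (w | v) hv
    · exact (mem_firing F t _).2 (Or.inl ⟨w, rfl, htT, ht w hv⟩)
    · exact absurd rfl hv

/-- The retraction. -/
noncomputable def rMap (F : ℕ → Finset W) (hF : ∀ t < T, (F t).Nonempty) :
    C(Avalanche (clockG T F) (expected F 0), Cx W T F) where
  toFun x := ⟨rFun F x.1, rFun_mem F hF x⟩
  continuous_toFun := by
    refine Continuous.subtype_mk (continuous_pi fun w => ?_) _
    unfold rFun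
    exact ((continuous_apply _).comp continuous_subtype_val).add
      (continuous_finsetSum _ fun s _ =>
        ((continuous_apply _).comp continuous_subtype_val).mul continuous_const)

/-- The inclusion. -/
noncomputable def iMap (F : ℕ → Finset W) :
    C(Cx W T F, Avalanche (clockG T F) (expected F 0)) where
  toFun y := ⟨iFun y.1, iFun_mem F y⟩
  continuous_toFun := by
    refine Continuous.subtype_mk (continuous_pi fun v => ?_) _
    rcases v with w | v
    · change Continuous fun a : Cx W T F => a.1 w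
      exact (continuous_apply w).comp continuous_subtype_val
    · exact continuous_const

theorem hFun_mem (F : ℕ → Finset W) (hF : ∀ t < T, (F t).Nonempty)
    (u : I) (x : Avalanche (clockG T F) (expected F 0)) :
    (∀ v, 0 ≤ (1 - (u : ℝ)) * (iFun (rFun F x.1) : Vtx W T → ℝ) v + u * x.1 v) ∧
    ∑ v, ((1 - (u : ℝ)) * (iFun (rFun F x.1) : Vtx W T → ℝ) v + u * x.1 v) = 1 ∧
      ∃ t, ∀ v, (1 - (u : ℝ)) * (iFun (rFun F x.1) : Vtx W T → ℝ) v + u * x.1 v ≠ 0 →
        v ∈ firing (clockG T F) (expected F 0) t := by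
  have hu0 : (0 : ℝ) ≤ u := u.2.1
  have hu1 : (0 : ℝ) ≤ 1 - u := by linarith [u.2.2]
  have hr := rFun_mem F hF x
  refine ⟨?_, ?_, ?_⟩
  · intro v
    refine add_nonneg (mul_nonneg hu1 ?_) (mul_nonneg hu0 (x.2.1 v))
    rcases v with w | v
    · exact hr.1 w
    · exact le_rfl
  · rw [Finset.sum_add_distrib, ← Finset.mul_sum, ← Finset.mul_sum, x.2.2.1]
    have : ∑ v, (iFun (rFun F x.1) : Vtx W T → ℝ) v = 1 := by
      rw [sum_vtx]
      simp [iFun, hr.2.1]
    rw [this]
    ring
  · obtain ⟨t, htT, h1, h2, h3⟩ := exists_time F x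
    refine ⟨t, ?_⟩
    rintro (w | s | v) hv
    · refine (mem_firing F t _).2 (Or.inl ⟨w, rfl, htT, ?_⟩)
      by_contra hcon
      apply hv
      have h4 : x.1 (Sum.inl w) = 0 := by
        by_contra h; exact hcon (h1 w h)
      have h5 : rFun F x.1 w = 0 := by
        unfold rFun
        rw [h4, zero_add]
        refine Finset.sum_eq_zero fun s _ => ?_
        by_cases h5 : x.1 (Sum.inr (Sum.inl s)) = 0
        · rw [h5, zero_mul]
        · have h6 := h2 s h5
          unfold bary
          rw [h6, if_neg hcon, mul_zero]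
      simp [iFun, h4, h5]
    · refine (mem_firing F t _).2 (Or.inr ⟨s, rfl, ?_⟩)
      by_contra hcon
      apply hv
      have h4 : x.1 (Sum.inr (Sum.inl s)) = 0 := by
        by_contra h; exact hcon (h2 s h)
      simp [iFun, h4]
    · exfalso
      apply hv
      simp [iFun, h3]

/-- The deformation. -/
noncomputable def hMap (F : ℕ → Finset W) (hF : ∀ t < T, (F t).Nonempty) :
    ContinuousMap.Homotopy ((iMap F).comp (rMap F hF)) (ContinuousMap.id
      (Avalanche (clockG T F) (expected F 0))) where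
  toFun p := ⟨fun v => (1 - (p.1 : ℝ)) * (iFun (rFun F p.2.1) : Vtx W T → ℝ) v + p.1 * p.2.1 v,
    hFun_mem F hF p.1 p.2⟩
  continuous_toFun := by
    refine Continuous.subtype_mk (continuous_pi fun v => ?_) _
    have c1 : Continuous fun p : I × Avalanche (clockG T F) (expected F 0) => (p.1 : ℝ) :=
      continuous_subtype_val.comp continuous_fst
    have c2 : ∀ v, Continuous fun p : I × Avalanche (clockG T F) (expected F 0) => p.2.1 v :=
      fun v => (continuous_apply v).comp (continuous_subtype_val.comp continuous_snd)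
    refine Continuous.add (Continuous.mul (continuous_const.sub c1) ?_) (c1.mul (c2 v))
    rcases v with w | v
    · simp only [iFun, Sum.elim_inl]
      unfold rFun
      exact (c2 _).add (continuous_finsetSum _ fun s _ => (c2 _).mul continuous_const)
    · exact continuous_const
  map_zero_left x := by
    apply Subtype.ext
    funext v
    simp [iMap, rMap]
  map_one_left x := by
    apply Subtype.ext
    funext v
    simp

/-- The avalanche complex of the clock is homotopy equivalent to the given complex. -/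
theorem collapse (F : ℕ → Finset W) (hF : ∀ t < T, (F t).Nonempty) :
    Nonempty (ContinuousMap.HomotopyEquiv (Avalanche (clockG T F) (expected F 0)) (Cx W T F)) := by
  refine ⟨⟨rMap F hF, iMap F, ⟨hMap F hF⟩, ?_⟩⟩
  have : (rMap F hF).comp (iMap F) = ContinuousMap.id (Cx W T F) := by
    ext y w
    simp [rMap, iMap, rFun, iFun]
  rw [this]

end Pool.Agent.R731.AV
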