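import Mathlib

/-!
# Avalanche complexes of digraphs: definitions
-/

set_option autoImplicit false

open scoped BigOperators

namespace Pool.Agent.R731.AV

open Classical in
/-- The out-degree `d⁺(v)` of a vertex of a finite digraph. -/
noncomputable def outDeg {V : Type} [Fintype V] (G : Digraph V) (v : V) : ℕ :=
  (Finset.univ.filter fun u => G.Adj v u).card

/-- A vertex `v` fires in the configuration `c`: it is not a sink and it is unstable,
`c v ≥ d⁺(v)`. -/
def Fires {V : Type} [Fintype V] (G : Digraph V) (c : V → ℕ) (v : V) : Prop :=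
  0 < outDeg G v ∧ outDeg G v ≤ c v

open Classical in
/-- One step of the parallel sandpile dynamics: every firing vertex sends one grain along each of
its outgoing arcs. -/
noncomputable def step {V : Type} [Fintype V] (G : Digraph V) (c : V → ℕ) (v : V) : ℕ :=
  c v - (if Fires G c v then outDeg G v else 0) +
    (Finset.univ.filter fun u => Fires G c u ∧ G.Adj u v).card

/-- The configuration at time `t`. -/
noncomputable def conf {V : Type} [Fintype V] (G : Digraph V) (c₀ : V → ℕ) (t : ℕ) : V → ℕ :=
  (step G)^[t] c₀

/-- The firing set `σ_t`. -/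
def firing {V : Type} [Fintype V] (G : Digraph V) (c₀ : V → ℕ) (t : ℕ) : Set V :=
  {v | Fires G (conf G c₀ t) v}

/-- The geometric realization of the avalanche complex `A(G, c₀)`, in barycentric coordinates: its
simplices are the nonempty subsets of the firing sets `σ_t`, `t ≥ 0`. The topology is that of the
finite-dimensional space of coordinates. -/
abbrev Avalanche {V : Type} [Fintype V] (G : Digraph V) (c₀ : V → ℕ) : Type :=
  {x : V → ℝ // (∀ v, 0 ≤ x v) ∧ ∑ v, x v = 1 ∧ ∃ t, ∀ v, x v ≠ 0 → v ∈ firing G c₀ t}

/-- The unit sphere `S^n`. -/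
abbrev Sph (n : ℕ) : Type := Metric.sphere (0 : EuclideanSpace ℝ (Fin (n + 1))) 1

/-- The base point `(1, 0, …, 0)` of the sphere. -/
noncomputable def basePt (n : ℕ) : Sph n :=
  ⟨EuclideanSpace.single 0 1, by simp⟩

/-- The relation which identifies the base points of the spheres with one additional point. -/
inductive WedgeRel {m : ℕ} (d : Fin m → ℕ) :
    Unit ⊕ (Σ i : Fin m, Sph (d i)) → Unit ⊕ (Σ i : Fin m, Sph (d i)) → Prop
  | glue (i : Fin m) : WedgeRel d (Sum.inr ⟨i, basePt (d i)⟩) (Sum.inl ())

/-- The wedge `S^{d_1} ∨ ⋯ ∨ S^{d_m}`, a quotient space of the disjoint union of the spheres and a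
point (for `m = 0` it is a point). -/
def Wedge {m : ℕ} (d : Fin m → ℕ) : Type := Quot (WedgeRel d)

instance {m : ℕ} (d : Fin m → ℕ) : TopologicalSpace (Wedge d) :=
  inferInstanceAs (TopologicalSpace (Quot (WedgeRel d)))

end Pool.Agent.R731.AV
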