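import Pool.Agent.R731.AV.Collapse

/-!
# Wedges of spheres as simplicial complexes
-/

set_option autoImplicit false

open scoped BigOperators unitInterval

namespace Pool.Agent.R731.AV

variable {m : ℕ}

/-- The vertices of the octahedral model of the wedge. -/
abbrev OV (d : Fin m → ℕ) : Type := Option (Σ i : Fin m, Fin (d i + 1) × Bool)

/-- The vertex `± e_j` of the `i`-th sphere; `+ e_0` is the common vertex `none`. -/
def vtx (d : Fin m → ℕ) (i : Fin m) (v : Fin (d i + 1) × Bool) : OV d :=
  if v = (0, true) then none else some ⟨i, v⟩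

theorem vtx_inj (d : Fin m → ℕ) (i : Fin m) : Function.Injective (vtx d i) := by
  intro v v' h
  unfold vtx at h
  split_ifs at h with h1 h2 h3
  · rw [h1, h2]
  · simp only [Option.some.injEq, Sigma.mk.injEq, heq_eq_eq, true_and] at h
    exact h

/-- The index set of the facets. -/
abbrev FI (d : Fin m → ℕ) : Type := Option (Σ i : Fin m, Fin (d i + 1) → Bool)

/-- The facets. -/
def facet (d : Fin m → ℕ) : FI d → Finset (OV d)
  | none => {none}
  | some ⟨i, e⟩ => Finset.univ.image fun j => vtx d i (j, e j)

theorem facet_nonempty (d : Fin m → ℕ) (a : FI d) : (facet d a).Nonempty := by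
  rcases a with _ | ⟨i, e⟩
  · exact ⟨none, by simp [facet]⟩
  · exact ⟨vtx d i (0, e 0), by
      unfold facet
      exact Finset.mem_image_of_mem (fun j => vtx d i (j, e j)) (Finset.mem_univ 0)⟩

/-- The enumeration of the facets. -/
noncomputable def enum (d : Fin m → ℕ) (t : ℕ) : Finset (OV d) :=
  if h : t < Fintype.card (FI d) then facet d ((Fintype.equivFin (FI d)).symm ⟨t, h⟩) else ∅

theorem enum_nonempty (d : Fin m → ℕ) (t : ℕ) (h : t < Fintype.card (FI d)) :
    (enum d t).Nonempty := by
  unfold enum
  rw [dif_pos h]
  exact facet_nonempty d _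

theorem enum_iff (d : Fin m → ℕ) (P : Finset (OV d) → Prop) :
    (∃ t < Fintype.card (FI d), P (enum d t)) ↔ ∃ a, P (facet d a) := by
  constructor
  · rintro ⟨t, h, hP⟩
    unfold enum at hP
    rw [dif_pos h] at hP
    exact ⟨_, hP⟩
  · rintro ⟨a, ha⟩
    refine ⟨(Fintype.equivFin (FI d) a).1, (Fintype.equivFin (FI d) a).2, ?_⟩
    unfold enum
    rw [dif_pos (Fintype.equivFin (FI d) a).2]
    simpa using ha

/-- The octahedral model of the wedge. -/
abbrev Oct (d : Fin m → ℕ) : Type := Cx (OV d) (Fintype.card (FI d)) (enum d)

/-- Positive and negative parts of the coordinates. -/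
noncomputable def part {n : ℕ} (z : Fin (n + 1) → ℝ) (v : Fin (n + 1) × Bool) : ℝ :=
  if v.2 then max (z v.1) 0 else max (-z v.1) 0

theorem part_nonneg {n : ℕ} (z : Fin (n + 1) → ℝ) (v : Fin (n + 1) × Bool) : 0 ≤ part z v := by
  unfold part; split_ifs <;> exact le_max_right _ _

theorem part_sub {n : ℕ} (z : Fin (n + 1) → ℝ) (j : Fin (n + 1)) :
    part z (j, true) - part z (j, false) = z j := by
  unfold part
  simp only [if_true, Bool.false_eq_true, if_false]
  rcases le_total 0 (z j) with h | h
  · rw [max_eq_left h, max_eq_right (by linarith)]; ring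
  · rw [max_eq_right h, max_eq_left (by linarith)]; ring

theorem part_add {n : ℕ} (z : Fin (n + 1) → ℝ) (j : Fin (n + 1)) :
    part z (j, true) + part z (j, false) = |z j| := by
  unfold part
  simp only [if_true, Bool.false_eq_true, if_false]
  rcases le_total 0 (z j) with h | h
  · rw [max_eq_left h, max_eq_right (by linarith), abs_of_nonneg h]; ring
  · rw [max_eq_right h, max_eq_left (by linarith), abs_of_nonpos h]; ring

theorem sum_part {n : ℕ} (z : Fin (n + 1) → ℝ) : ∑ v, part z v = ∑ j, |z j| := by
  rw [Fintype.sum_prod_type]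
  refine Finset.sum_congr rfl fun j _ => ?_
  rw [Fintype.sum_bool, part_add]

theorem part_smul {n : ℕ} (z : Fin (n + 1) → ℝ) (r : ℝ) (hr : 0 ≤ r) (v : Fin (n + 1) × Bool) :
    part (fun j => r * z j) v = r * part z v := by
  unfold part
  split_ifs
  · rw [mul_max_of_nonneg _ _ hr, mul_zero]
  · rw [mul_max_of_nonneg _ _ hr, mul_zero, mul_neg]

theorem part_cont {n : ℕ} (v : Fin (n + 1) × Bool) :
    Continuous fun z : Fin (n + 1) → ℝ => part z v := by
  unfold part
  split_ifs
  · exact (continuous_apply _).max continuous_const
  · exact (continuous_apply _).neg.max continuous_const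

/-- The `ℓ¹` norm. -/
noncomputable def nrm {n : ℕ} (z : Fin (n + 1) → ℝ) : ℝ := ∑ j, |z j|

theorem nrm_pos {n : ℕ} (p : Sph n) : 0 < nrm (fun j => p.1 j) := by
  unfold nrm
  by_contra h
  have h0 : ∀ j, |p.1 j| = 0 := by
    have h1 : ∑ j, |p.1 j| = 0 :=
      le_antisymm (not_lt.1 h) (Finset.sum_nonneg fun j _ => abs_nonneg _)
    intro j
    exact (Finset.sum_eq_zero_iff_of_nonneg fun j _ => abs_nonneg _).1 h1 j (Finset.mem_univ j)
  have h2 : p.1 = 0 := by
    ext j
    simpa using h0 j
  have h3 := p.2
  rw [mem_sphere_zero_iff_norm, h2, norm_zero] at h3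
  exact zero_ne_one h3

/-- The point of the complex with the coordinates `c v` at the vertices of the `i`-th sphere. -/
noncomputable def push (d : Fin m → ℕ) (i : Fin m) (c : Fin (d i + 1) × Bool → ℝ) (w : OV d) : ℝ :=
  ∑ v, if vtx d i v = w then c v else 0

theorem push_vtx (d : Fin m → ℕ) (i : Fin m) (c : Fin (d i + 1) × Bool → ℝ)
    (v : Fin (d i + 1) × Bool) : push d i c (vtx d i v) = c v := by
  unfold push
  rw [Finset.sum_eq_single v]
  · simp
  · intro v' _ hv'
    rw [if_neg (fun h => hv' (vtx_inj d i h))]
  · simp

theorem push_out (d : Fin m → ℕ) (i : Fin m) (c : Fin (d i + 1) × Bool → ℝ) (w : OV d)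
    (h : ∀ v, vtx d i v ≠ w) : push d i c w = 0 := by
  unfold push
  exact Finset.sum_eq_zero fun v _ => if_neg (h v)

theorem sum_push (d : Fin m → ℕ) (i : Fin m) (c : Fin (d i + 1) × Bool → ℝ) :
    ∑ w, push d i c w = ∑ v, c v := by
  unfold push
  rw [Finset.sum_comm]
  refine Finset.sum_congr rfl fun v _ => ?_
  simp

/-- The coordinates of the image of a point of the `i`-th sphere. -/
noncomputable def phiFun (d : Fin m → ℕ) (i : Fin m) (p : Sph (d i)) : OV d → ℝ :=
  push d i fun v => part (fun j => p.1 j) v / nrm fun j => p.1 j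

theorem phi_mem (d : Fin m → ℕ) (i : Fin m) (p : Sph (d i)) :
    (∀ w, 0 ≤ phiFun d i p w) ∧ ∑ w, phiFun d i p w = 1 ∧
      ∃ t < Fintype.card (FI d), ∀ w, phiFun d i p w ≠ 0 → w ∈ enum d t := by
  refine ⟨?_, ?_, ?_⟩
  · intro w
    unfold phiFun push
    refine Finset.sum_nonneg fun v _ => ?_
    split_ifs
    · exact div_nonneg (part_nonneg _ _) (nrm_pos p).le
    · exact le_rfl
  · unfold phiFun
    rw [sum_push, ← Finset.sum_div, sum_part]
    exact div_self (nrm_pos p).ne'
  · rw [enum_iff d fun s => ∀ w, phiFun d i p w ≠ 0 → w ∈ s]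
    refine ⟨some ⟨i, fun j => decide (0 ≤ p.1 j)⟩, ?_⟩
    intro w hw
    by_cases h : ∃ v, vtx d i v = w
    · obtain ⟨⟨j, b⟩, rfl⟩ := h
      unfold phiFun at hw
      rw [push_vtx] at hw
      have h1 : part (fun j => p.1 j) (j, b) ≠ 0 := fun h => hw (by rw [h, zero_div])
      have h2 : b = decide (0 ≤ p.1 j) := by
        unfold part at h1
        rcases b with _ | _
        · simp only [Bool.false_eq_true, if_false] at h1
          symm
          rw [decide_eq_false_iff_not]
          intro h3
          exact h1 (max_eq_right (by linarith))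
        · simp only [if_true] at h1
          symm
          rw [decide_eq_true_iff]
          by_contra h3
          exact h1 (max_eq_right (by linarith))
      rw [h2]
      unfold facet
      exact Finset.mem_image_of_mem (fun j => vtx d i (j, decide (0 ≤ p.1 j))) (Finset.mem_univ j)
    · push Not at h
      exact absurd (push_out d i _ w h) hw

/-- The common vertex as a point. -/
noncomputable def centre (d : Fin m → ℕ) : Oct d :=
  ⟨Pi.single none 1, by
    refine ⟨fun w => ?_, ?_, ?_⟩
    · rcases w with _ | w <;> simp
    · simp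
    · rw [enum_iff d fun s => ∀ w, (Pi.single none 1 : OV d → ℝ) w ≠ 0 → w ∈ s]
      refine ⟨none, fun w hw => ?_⟩
      rcases w with _ | w
      · simp [facet]
      · simp at hw⟩

/-- The map on the disjoint union. -/
noncomputable def phi (d : Fin m → ℕ) : Unit ⊕ (Σ i : Fin m, Sph (d i)) → Oct d
  | Sum.inl _ => centre d
  | Sum.inr ⟨i, p⟩ => ⟨phiFun d i p, phi_mem d i p⟩

theorem phi_cont (d : Fin m → ℕ) : Continuous (phi d) := by
  refine continuous_sum_dom.2 ⟨continuous_of_discreteTopology, ?_⟩
  refine continuous_sigma fun i => ?_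
  refine Continuous.subtype_mk (continuous_pi fun w => ?_) _
  unfold phiFun push
  refine continuous_finsetSum _ fun v _ => ?_
  split_ifs
  · have c0 : Continuous fun p : Sph (d i) => (fun j => p.1 j : Fin (d i + 1) → ℝ) := by
      refine continuous_pi fun j => ?_
      exact (EuclideanSpace.proj (𝕜 := ℝ) j).continuous.comp continuous_subtype_val
    refine Continuous.div ((part_cont v).comp c0) ?_ fun p => (nrm_pos p).ne'
    unfold nrm
    exact continuous_finsetSum _ fun j _ => ((continuous_apply j).comp c0).abs
  · exact continuous_const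

/-- A point of the sphere all of whose parts vanish except the positive part of the first
coordinate is the base point. -/
theorem eq_base {n : ℕ} (p : Sph n) (h : ∀ v, v ≠ (0, true) → part (fun j => p.1 j) v = 0) :
    p = basePt n := by
  have h1 : ∀ j, j ≠ 0 → p.1 j = 0 := by
    intro j hj
    have := part_sub (fun j => p.1 j) j
    rw [h (j, true) (by simp [hj]), h (j, false) (by simp)] at this
    linarith
  have h2 : 0 ≤ p.1 0 := by
    have := part_sub (fun j => p.1 j) 0
    rw [h (0, false) (by simp)] at this
    have h3 := part_nonneg (fun j => p.1 j) (0, true)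
    linarith
  have h3 : p.1 = EuclideanSpace.single 0 (p.1 0) := by
    ext j
    by_cases hj : j = 0
    · subst hj; simp
    · rw [h1 j hj]; simp [hj]
  have h4 : p.1 0 = 1 := by
    have := p.2
    rw [mem_sphere_zero_iff_norm, h3, EuclideanSpace.norm_single, Real.norm_eq_abs,
      abs_of_nonneg h2] at this
    exact this
  apply Subtype.ext
  rw [h3, h4]
  rfl

theorem phi_base (d : Fin m → ℕ) (i : Fin m) : phi d (Sum.inr ⟨i, basePt (d i)⟩) = centre d := by
  apply Subtype.ext
  change phiFun d i (basePt (d i)) = Pi.single none 1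
  have h0 : ∀ v, part (fun j => (basePt (d i)).1 j) v = if v = (0, true) then 1 else 0 := by
    rintro ⟨j, b⟩
    unfold part basePt
    by_cases hj : j = 0
    · subst hj
      rcases b with _ | _ <;> simp
    · rcases b with _ | _ <;> simp [hj]
  have h1 : nrm (fun j => (basePt (d i)).1 j) = 1 := by
    unfold nrm
    rw [← sum_part]
    simp only [h0]
    simp
  unfold phiFun
  rw [h1]
  funext w
  unfold push
  simp only [h0, div_one]
  rcases w with _ | w
  · rw [Finset.sum_eq_single (0, true)]
    · simp [vtx]
    · intro v _ hv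
      simp [hv]
    · simp
  · rw [Finset.sum_eq_zero]
    · simp
    · intro v _
      by_cases hv : v = (0, true)
      · subst hv
        simp [vtx]
      · simp [hv]

/-- The map from the wedge. -/
noncomputable def psi (d : Fin m → ℕ) : Wedge d → Oct d :=
  Quot.lift (phi d) (by
    rintro _ _ ⟨i⟩
    exact phi_base d i)

theorem psi_cont (d : Fin m → ℕ) : Continuous (psi d) :=
  continuous_quot_lift _ (phi_cont d)

theorem glue_eq (d : Fin m → ℕ) (i : Fin m) :
    (Quot.mk _ (Sum.inr ⟨i, basePt (d i)⟩) : Wedge d) = Quot.mk _ (Sum.inl ()) :=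
  Quot.sound (WedgeRel.glue i)

/-- If the image of a point avoids the vertices of its own sphere other than the base vertex, it is
the base point. -/
theorem base_of (d : Fin m → ℕ) (i : Fin m) (p : Sph (d i))
    (h : ∀ v, v ≠ (0, true) → phiFun d i p (vtx d i v) = 0) : p = basePt (d i) := by
  refine eq_base p fun v hv => ?_
  have := h v hv
  unfold phiFun at this
  rw [push_vtx, div_eq_zero_iff] at this
  exact this.resolve_right (nrm_pos p).ne'

theorem psi_inj (d : Fin m → ℕ) : Function.Injective (psi d) := by
  have key : ∀ i (p : Sph (d i)), phiFun d i p = Pi.single none 1 →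
      (Quot.mk _ (Sum.inr ⟨i, p⟩) : Wedge d) = Quot.mk _ (Sum.inl ()) := by
    intro i p h
    rw [base_of d i p]
    · exact glue_eq d i
    · intro v hv
      rw [h]
      simp [vtx, hv]
  intro q q' h
  induction q using Quot.ind with
  | mk a =>
  induction q' using Quot.ind with
  | mk a' =>
  change phi d a = phi d a' at h
  rcases a with u | ⟨i, p⟩
  · rcases a' with u' | ⟨i', p'⟩
    · rfl
    · exact (key i' p' (congrArg Subtype.val h).symm).symm
  · rcases a' with u' | ⟨i', p'⟩
    · exact key i p (congrArg Subtype.val h)
    · have h' : phiFun d i p = phiFun d i' p' := congrArg Subtype.val h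
      by_cases hi : i = i'
      · subst hi
        have h1 : ∀ j, p.1 j / nrm (fun j => p.1 j) = p'.1 j / nrm (fun j => p'.1 j) := by
          intro j
          have e : ∀ v, part (fun j => p.1 j) v / nrm (fun j => p.1 j) =
              part (fun j => p'.1 j) v / nrm (fun j => p'.1 j) := by
            intro v
            have := congrFun h' (vtx d i v)
            unfold phiFun at this
            rwa [push_vtx, push_vtx] at this
          have e1 := e (j, true)
          have e2 := e (j, false)
          have s1 := part_sub (fun j => p.1 j) j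
          have s2 := part_sub (fun j => p'.1 j) j
          simp only at s1 s2
          rw [← s1, ← s2, sub_div, sub_div, e1, e2]
        set r := nrm (fun j => p.1 j) with hr
        set r' := nrm (fun j => p'.1 j) with hr'
        have hr0 : 0 < r := nrm_pos p
        have hr0' : 0 < r' := nrm_pos p'
        have h2 : p.1 = (r / r') • p'.1 := by
          ext j
          have := h1 j
          rw [div_eq_div_iff hr0.ne' hr0'.ne'] at this
          simp only [PiLp.smul_apply, smul_eq_mul]
          field_simp
          linarith
        have h3 : r / r' = 1 := by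
          have n1 := p.2
          have n2 := p'.2
          rw [mem_sphere_zero_iff_norm] at n1 n2
          rw [h2, norm_smul, n2, mul_one, Real.norm_eq_abs, abs_of_pos (by positivity)] at n1
          exact n1
        have h4 : p = p' := by
          apply Subtype.ext
          rw [h2, h3, one_smul]
        rw [h4]
      · have hb : p = basePt (d i) := by
          refine base_of d i p fun v hv => ?_
          rw [h']
          refine push_out d i' _ _ fun v' hv' => ?_
          unfold vtx at hv'
          rw [if_neg hv] at hv'
          split_ifs at hv' with h5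
          simp only [Option.some.injEq, Sigma.mk.injEq] at hv'
          exact hi hv'.1.symm
        have hb' : p' = basePt (d i') := by
          refine base_of d i' p' fun v hv => ?_
          rw [← h']
          refine push_out d i _ _ fun v' hv' => ?_
          unfold vtx at hv'
          rw [if_neg hv] at hv'
          split_ifs at hv' with h5
          simp only [Option.some.injEq, Sigma.mk.injEq] at hv'
          exact hi hv'.1
        rw [hb, hb', glue_eq, glue_eq]

theorem psi_surj (d : Fin m → ℕ) : Function.Surjective (psi d) := by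
  rintro ⟨x, h0, h1, h2⟩
  rw [enum_iff d fun s => ∀ w, x w ≠ 0 → w ∈ s] at h2
  obtain ⟨a, ha⟩ := h2
  rcases a with _ | ⟨i, e⟩
  · refine ⟨Quot.mk _ (Sum.inl ()), ?_⟩
    apply Subtype.ext
    change Pi.single none 1 = x
    have hz : ∀ w, w ≠ none → x w = 0 := by
      intro w hw
      by_contra hcon
      have := ha w hcon
      simp [facet] at this
      exact hw this
    have hn : x none = 1 := by
      rw [← h1, Finset.sum_eq_single none]
      · intro w _ hw
        exact hz w hw
      · simp
    funext w
    by_cases hw : w = none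
    · subst hw; simp [hn]
    · rw [hz w hw]; simp [hw]
  · -- the point of the `i`-th sphere
    have hz : ∀ w, w ∉ facet d (some ⟨i, e⟩) → x w = 0 := by
      intro w hw
      by_contra hcon
      exact hw (ha w hcon)
    have hne : ∀ j, x (vtx d i (j, !(e j))) = 0 := by
      intro j
      apply hz
      unfold facet
      intro h
      rw [Finset.mem_image] at h
      obtain ⟨j', _, h⟩ := h
      have := vtx_inj d i h
      simp only [Prod.mk.injEq] at this
      obtain ⟨h5, h6⟩ := this
      subst h5
      cases h7 : e j' <;> simp [h7] at h6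
    set z : Fin (d i + 1) → ℝ := fun j => x (vtx d i (j, true)) - x (vtx d i (j, false)) with hzdef
    have hpart : ∀ v, part z v = x (vtx d i v) := by
      rintro ⟨j, b⟩
      have h3 := hne j
      have h4 := h0 (vtx d i (j, true))
      have h5 := h0 (vtx d i (j, false))
      unfold part
      cases hb : e j
      · rw [hb, Bool.not_false] at h3
        rcases b with _ | _
        · simp only [hzdef, Bool.false_eq_true, if_false, h3]
          rw [max_eq_left (by linarith)]; ring
        · simp only [hzdef, if_true, h3]
          rw [max_eq_right (by linarith)]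
      · rw [hb, Bool.not_true] at h3
        rcases b with _ | _
        · simp only [hzdef, Bool.false_eq_true, if_false, h3]
          rw [max_eq_right (by linarith)]
        · simp only [hzdef, if_true, h3]
          rw [max_eq_left (by linarith)]; ring
    have hrange : ∀ w, (∀ v, vtx d i v ≠ w) → x w = 0 := by
      intro w hw
      apply hz
      unfold facet
      intro h
      rw [Finset.mem_image] at h
      obtain ⟨j', _, h⟩ := h
      exact hw _ h
    have hpush : push d i (fun v => x (vtx d i v)) = x := by
      funext w
      by_cases hw : ∃ v, vtx d i v = w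
      · obtain ⟨v, rfl⟩ := hw
        rw [push_vtx]
      · push Not at hw
        rw [push_out d i _ w hw, hrange w hw]
    have hnz : nrm z = 1 := by
      unfold nrm
      rw [← sum_part]
      simp only [hpart]
      rw [← sum_push, hpush, h1]
    set zE : EuclideanSpace ℝ (Fin (d i + 1)) := WithLp.toLp 2 z with hzE
    have hzj : ∀ j, zE j = z j := fun j => rfl
    have hzne : zE ≠ 0 := by
      intro h
      have : nrm z = 0 := by
        unfold nrm
        refine Finset.sum_eq_zero fun j _ => ?_
        rw [← hzj j, h]; simp
      rw [hnz] at this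
      exact one_ne_zero this
    have hzn : 0 < ‖zE‖ := norm_pos_iff.2 hzne
    refine ⟨Quot.mk _ (Sum.inr ⟨i, ⟨‖zE‖⁻¹ • zE, ?_⟩⟩), ?_⟩
    · rw [mem_sphere_zero_iff_norm, norm_smul, norm_inv, norm_norm, inv_mul_cancel₀ hzn.ne']
    · apply Subtype.ext
      change phiFun d i _ = x
      unfold phiFun
      have e1 : (fun j => (‖zE‖⁻¹ • zE) j : Fin (d i + 1) → ℝ) = fun j => ‖zE‖⁻¹ * z j := by
        funext j
        simp [hzj]
      have e2 : ∀ v, part (fun j => ‖zE‖⁻¹ * z j) v / nrm (fun j => ‖zE‖⁻¹ * z j) =
          x (vtx d i v) := by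
        intro v
        have e3 : nrm (fun j => ‖zE‖⁻¹ * z j) = ‖zE‖⁻¹ := by
          unfold nrm
          simp only [abs_mul]
          rw [← Finset.mul_sum]
          unfold nrm at hnz
          rw [hnz, mul_one, abs_of_pos (by positivity)]
        rw [part_smul z _ (by positivity), e3, mul_div_assoc, mul_comm, div_mul_cancel₀ _ (by positivity)]
        exact hpart v
      change (push d i fun v => part (fun j => (‖zE‖⁻¹ • zE) j) v / nrm fun j => (‖zE‖⁻¹ • zE) j) = x
      rw [e1]
      simp only [e2]
      exact hpush

instance (n : ℕ) : CompactSpace (Sph n) := isCompact_iff_compactSpace.mp (isCompact_sphere 0 1)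

instance (d : Fin m → ℕ) : CompactSpace (Wedge d) :=
  inferInstanceAs (CompactSpace (Quot (WedgeRel d)))

/-- The wedge of spheres is homeomorphic to the octahedral model. -/
noncomputable def wedgeHomeo (d : Fin m → ℕ) : Wedge d ≃ₜ Oct d :=
  Continuous.homeoOfEquivCompactToT2 (f := Equiv.ofBijective (psi d) ⟨psi_inj d, psi_surj d⟩)
    (psi_cont d)

/-- Every wedge of spheres is homotopy equivalent to an avalanche complex. -/
theorem main (m : ℕ) (d : Fin m → ℕ) :
    ∃ (V : Type) (_ : Fintype V) (G : Digraph V) (c₀ : V → ℕ), (∀ v, ¬ G.Adj v v) ∧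
      (SimpleGraph.fromRel G.Adj).Connected ∧
      Nonempty (ContinuousMap.HomotopyEquiv (Avalanche G c₀) (Wedge d)) := by
  refine ⟨Vtx (OV d) (Fintype.card (FI d)), inferInstance, clockG _ (enum d), expected (enum d) 0,
    loopless _, connected _, ?_⟩
  obtain ⟨e⟩ := collapse (enum d) (enum_nonempty d)
  exact ⟨e.trans (wedgeHomeo d).symm.toHomotopyEquiv⟩

end Pool.Agent.R731.AV
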